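import Pool.Agent.Helper64.E0.Main

/-!
# Coding a cone into translates of one point of a set of positive measure

If `P` is a closed set of positive measure, then there are a point `s` of `P` and numbers
`n 0 < n 1 < ...` (very sparse, even) such that `s + ∑ k, δ (n k + w k)` is in `P` for all `w`.
-/

open MeasureTheory Measure Filter Topology
open scoped ENNReal

namespace Pool.Agent.Helper1.JC

open Pool.Agent.Helper64.E0

/-! ### computability -/

theorem RO.prec {z : ℕ → Bool} {f h : ℕ → ℕ} (hf : RO z f) (hh : RO z h) {g : ℕ → ℕ → ℕ}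
    (h0 : ∀ a, g a 0 = f a) (hs : ∀ a n, g a (n + 1) = h (Nat.pair a (Nat.pair n (g a n)))) :
    RO z fun p => g p.unpair.1 p.unpair.2 := by
  refine (Nat.RecursiveIn.prec hf hh).of_eq fun p => ?_
  have key : ∀ a n, (Nat.rec (motive := fun _ => Part ℕ) (Part.some (f a)) (fun y IH => IH.bind fun i =>
      Part.some (h (Nat.pair a (Nat.pair y i)))) n : Part ℕ) = Part.some (g a n) := by
    intro a n
    induction n with
    | zero =>
      rw [h0]
      rfl
    | succ n ih =>
      rw [hs]
      simp only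
      rw [ih, Part.bind_some]
  exact key _ _

theorem RO.least {z : ℕ → Bool} {f g : ℕ → ℕ} (hf : RO z f)
    (h0 : ∀ a, f (Nat.pair a (g a)) = 0) (h1 : ∀ a n, n < g a → ¬ f (Nat.pair a n) = 0) :
    RO z g := by
  refine (Nat.RecursiveIn.rfind hf).of_eq fun a => ?_
  rw [Part.eq_some_iff]
  refine Nat.mem_rfind.2 ⟨?_, ?_⟩
  · simp [h0 a]
  · intro m hm
    simp [h1 a m hm]

theorem RO.find' {z : ℕ → Bool} {m : ℕ → ℕ} (h : TLe (gr m) z) : RO z m := by
  have h1 : Primrec fun k : ℕ => 1 - k := Primrec.nat_sub.comp (Primrec.const 1) Primrec.id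
  refine RO.find ((RO.prim h1).comp (RO.iff_tle.2 h)) fun a n => ?_
  rw [← gr_pair m a n]
  cases gr m (Nat.pair a n) <;> simp

/-- the bitwise sum -/
def xr (x y : ℕ → Bool) : ℕ → Bool := fun n => xor (x n) (y n)

theorem TLe.xr {x y z : ℕ → Bool} (hx : TLe x z) (hy : TLe y z) : TLe (xr x y) z := by
  rw [← RO.iff_tle] at hx hy ⊢
  have hu : Primrec Nat.unpair := Primrec.unpair
  have h1 : Primrec fun q : ℕ => (q.unpair.1 + q.unpair.2) % 2 :=
    Primrec.nat_mod.comp (Primrec.nat_add.comp (Primrec.fst.comp hu) (Primrec.snd.comp hu))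
      (Primrec.const 2)
  have h2 := (RO.prim (z := z) h1).comp (hx.pair hy)
  have h3 : (fun n => (JC.xr x y n).toNat) = fun n =>
      ((Nat.pair (x n).toNat (y n).toNat).unpair.1 + (Nat.pair (x n).toNat (y n).toNat).unpair.2) % 2 := by
    funext n
    simp only [Nat.unpair_pair, JC.xr]
    cases x n <;> cases y n <;> rfl
  rw [h3]
  exact h2

open Classical in
/-- `∑ k, δ (n k + w k)` -/
noncomputable def S (n : ℕ → ℕ) (w : ℕ → Bool) : ℕ → Bool := fun m =>
  decide (∃ j, m = n j + (w j).toNat)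

theorem S_iff {n : ℕ → ℕ} {w : ℕ → Bool} {m : ℕ} : S n w m = true ↔ ∃ j, m = n j + (w j).toNat := by
  simp only [S, decide_eq_true_eq]

theorem toNat_le_one (c : Bool) : c.toNat ≤ 1 := Bool.toNat_le c

/-- sparse sequences -/
def Sp (n : ℕ → ℕ) : Prop := (∀ k, n k + 2 ≤ n (k + 1)) ∧ ∀ k, n k % 2 = 0

theorem Sp.lt {n : ℕ → ℕ} (h : Sp n) {i j : ℕ} (hij : i < j) : n i + 2 ≤ n j := by
  induction hij with
  | refl => exact h.1 i
  | @step m _ ih => exact ih.trans ((Nat.le_add_right _ 2).trans (h.1 m))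

theorem Sp.le {n : ℕ → ℕ} (h : Sp n) (k : ℕ) : k ≤ n k := by
  induction k with
  | zero => exact Nat.zero_le _
  | succ k ih => exact le_trans (by omega) (h.1 k)

theorem encode {n : ℕ → ℕ} (h : Sp n) : ∃ p : ℕ → Bool, ∀ w z, TLe w z → TLe p z → TLe (S n w) z := by
  classical
  set K : ℕ → ℕ := fun m => if h : ∃ k, n k = m ∨ n k + 1 = m then h.choose else 0 with hK
  refine ⟨join (gr n) (gr K), fun w z hw hp => ?_⟩
  have h1 : RO z n := RO.find' ((TLe.left _ _).trans hp)
  have h2 : RO z K := RO.find' ((TLe.right _ _).trans hp)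
  have h3 := RO.iff_tle.2 hw
  have h4 : RO z fun m => Nat.pair m (Nat.pair (n (K m)) (w (K m)).toNat) :=
    (RO.prim Primrec.id).pair ((h1.comp h2).pair (h3.comp h2))
  have hu : Primrec Nat.unpair := Primrec.unpair
  have h5 : Primrec fun q : ℕ => if q.unpair.1 = q.unpair.2.unpair.1 + q.unpair.2.unpair.2
      then 1 else 0 := by
    refine Primrec.ite (PrimrecRel.comp Primrec.eq (Primrec.fst.comp hu) ?_) (Primrec.const 1)
      (Primrec.const 0)
    exact Primrec.nat_add.comp (Primrec.fst.comp (hu.comp (Primrec.snd.comp hu)))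
      (Primrec.snd.comp (hu.comp (Primrec.snd.comp hu)))
  have h6 := (RO.prim (z := z) h5).comp h4
  rw [← RO.iff_tle]
  have h7 : (fun m => (S n w m).toNat) = fun m =>
      if (Nat.pair m (Nat.pair (n (K m)) (w (K m)).toNat)).unpair.1 =
        (Nat.pair m (Nat.pair (n (K m)) (w (K m)).toNat)).unpair.2.unpair.1 +
        (Nat.pair m (Nat.pair (n (K m)) (w (K m)).toNat)).unpair.2.unpair.2 then 1 else 0 := by
    funext m
    simp only [Nat.unpair_pair]
    have h8 : S n w m = true ↔ m = n (K m) + (w (K m)).toNat := by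
      rw [S_iff]
      constructor
      · rintro ⟨j, hj⟩
        have hj' := toNat_le_one (w j)
        have hex : ∃ k, n k = m ∨ n k + 1 = m := ⟨j, by omega⟩
        have hKm : n (K m) = m ∨ n (K m) + 1 = m := by
          simp only [hK]
          rw [dif_pos hex]
          exact hex.choose_spec
        have h9 : K m = j := by
          rcases lt_trichotomy (K m) j with h10 | h10 | h10
          · have := h.lt h10
            omega
          · exact h10
          · have := h.lt h10
            omega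
        rw [h9]
        exact hj
      · intro hm
        exact ⟨K m, hm⟩
    by_cases h9 : m = n (K m) + (w (K m)).toNat
    · rw [if_pos h9, h8.2 h9]
      rfl
    · rw [if_neg h9]
      have h10 : S n w m = false := by
        rw [← Bool.not_eq_true]
        exact fun h11 => h9 (h8.1 h11)
      rw [h10]
      rfl
  rw [h7]
  exact h6

theorem decode {n : ℕ → ℕ} (h : Sp n) (w : ℕ → Bool) : TLe w (S n w) := by
  classical
  set z := S n w with hz
  set pos : ℕ → ℕ := fun k => n k + (w k).toNat with hpos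
  have hposz : ∀ k, z (pos k) = true := fun k => S_iff.2 ⟨k, rfl⟩
  have hlt : ∀ i j, i < j → pos i < pos j := by
    intro i j hij
    have h1 := h.lt hij
    have h2 := toNat_le_one (w i)
    simp only [hpos]
    omega
  have hposle : ∀ k, k ≤ pos k := fun k => (h.le k).trans (Nat.le_add_right _ _)
  have hex : ∀ a, ∃ m, a ≤ m ∧ z m = true := fun a => ⟨pos a, hposle a, hposz a⟩
  set F : ℕ → ℕ := fun a => Nat.find (hex a) with hF
  have hz1 : RO z fun m => (z m).toNat := RO.iff_tle.2 (TLe.refl z)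
  have hu : Primrec Nat.unpair := Primrec.unpair
  have hFr : RO z F := by
    have h2 : RO z fun q : ℕ => Nat.pair q (z q.unpair.2).toNat :=
      (RO.prim Primrec.id).pair (hz1.comp (RO.prim (Primrec.snd.comp hu)))
    have h3 : Primrec fun q : ℕ => if q.unpair.1.unpair.1 ≤ q.unpair.1.unpair.2
        then 1 - q.unpair.2 else 1 := by
      refine Primrec.ite (PrimrecRel.comp Primrec.nat_le
        (Primrec.fst.comp (hu.comp (Primrec.fst.comp hu)))
        (Primrec.snd.comp (hu.comp (Primrec.fst.comp hu)))) ?_ (Primrec.const 1)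
      exact Primrec.nat_sub.comp (Primrec.const 1) (Primrec.snd.comp hu)
    have h4 := (RO.prim (z := z) h3).comp h2
    refine RO.least h4 (fun a => ?_) fun a m hm => ?_
    · simp only [Nat.unpair_pair]
      have h5 := Nat.find_spec (hex a)
      rw [if_pos h5.1, h5.2]
      rfl
    · simp only [Nat.unpair_pair]
      have h5 := Nat.find_min (hex a) hm
      by_cases h6 : a ≤ m
      · rw [if_pos h6]
        have h7 : z m = false := by
          rw [← Bool.not_eq_true]
          exact fun h8 => h5 ⟨h6, h8⟩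
        rw [h7]
        exact one_ne_zero
      · rw [if_neg h6]
        exact one_ne_zero
  have hFpos : ∀ a k, (∀ i < k, pos i < a) → a ≤ pos k → F a = pos k := by
    intro a k h1 h2
    simp only [hF]
    rw [Nat.find_eq_iff]
    refine ⟨⟨h2, hposz k⟩, fun m hm => ?_⟩
    rintro ⟨h3, h4⟩
    obtain ⟨j, hj⟩ := S_iff.1 h4
    have hj' : m = pos j := hj
    rcases lt_or_ge j k with h5 | h5
    · have := h1 j h5
      omega
    · rcases Nat.lt_or_eq_of_le h5 with h6 | h6
      · have := hlt k j h6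
        omega
      · rw [h6] at hm
        omega
  have h8 : RO z fun _ : ℕ => F 0 := hFr.comp (RO.prim (Primrec.const 0))
  have h9 : RO z fun q : ℕ => F (q.unpair.2.unpair.2 + 1) :=
    hFr.comp (RO.prim (Primrec.succ.comp (Primrec.snd.comp (hu.comp (Primrec.snd.comp hu)))))
  have h10 := RO.prec (z := z) h8 h9 (g := fun _ k => pos k) (fun a => by
    rw [hFpos 0 0 (fun i hi => absurd hi (Nat.not_lt_zero i)) (Nat.zero_le _)]) fun a k => by
    simp only [Nat.unpair_pair]
    rw [hFpos (pos k + 1) (k + 1) (fun i hi => ?_) (hlt k (k + 1) (Nat.lt_succ_self k))]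
    rcases Nat.lt_succ_iff_lt_or_eq.1 hi with h11 | h11
    · exact (hlt i k h11).trans (Nat.lt_succ_self _)
    · rw [h11]
      exact Nat.lt_succ_self _
  have h11 : RO z pos := by
    have h12 := h10.comp (RO.prim (z := z) (f := fun k => Nat.pair 0 k)
      (Primrec₂.natPair.comp (Primrec.const 0) Primrec.id))
    simpa only [Nat.unpair_pair] using h12
  have h12 : RO z fun k => pos k % 2 :=
    (RO.prim (z := z) (f := fun m => m % 2) (Primrec.nat_mod.comp Primrec.id (Primrec.const 2))).comp h11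
  rw [← RO.iff_tle]
  have h13 : (fun k => (w k).toNat) = fun k => pos k % 2 := by
    funext k
    have h14 := toNat_le_one (w k)
    have h15 := h.2 k
    simp only [hpos]
    omega
  rw [h13]
  exact h12

/-! ### sets of positive measure -/

theorem mp_xr (p : ℕ → Bool) : MeasurePreserving (fun z => xr p z) (mu ℕ) (mu ℕ) := by
  have hm : Measurable fun z => xr p z := by
    rw [measurable_pi_iff]
    intro n
    exact (measurable_of_finite fun c : Bool => xor (p n) c).comp (measurable_pi_apply n)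
  refine ⟨hm, ?_⟩
  have h1 := Measure.infinitePi_map_pi (μ := fun _ : ℕ => coin)
    (f := fun n (c : Bool) => xor (p n) c) fun n => measurable_of_finite _
  have h2 : (fun n : ℕ => coin.map fun c : Bool => xor (p n) c) = fun _ => coin := by
    funext n
    cases p n
    · simp
    · simpa using coin_map_not
  rw [h2] at h1
  exact h1

theorem cont_xr (p : ℕ → Bool) : Continuous fun z => xr p z :=
  continuous_pi fun n => (continuous_of_discreteTopology (f := fun c : Bool => xor (p n) c)).comp
    (continuous_apply n)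

/-- the point mass -/
def dl (n : ℕ) : ℕ → Bool := fun m => decide (m = n)

theorem near {P : Set (ℕ → Bool)} (hP : IsClosed P) {ε : ℝ≥0∞} (hε : 0 < ε) :
    ∃ N, ∀ n, N ≤ n → mu ℕ (P \ (fun z => xr (dl n) z) ⁻¹' P) ≤ ε := by
  set C : ℕ → Set (ℕ → Bool) := fun N => {y | ∃ z ∈ P, pre z N = pre y N} with hC
  have hCc : ∀ N, IsClopen (C N) := fun N =>
    isClopen_pre N fun T => ∃ z ∈ P, pre z N = T
  have hpm : ∀ {y z : ℕ → Bool} {N M : ℕ}, N ≤ M → pre z M = pre y M → pre z N = pre y N := by
    intro y z N M hNM h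
    rw [← pre_inter z hNM, ← pre_inter y hNM, h]
  have hCa : Antitone C := by
    rintro N M hNM y ⟨z, hz, h⟩
    exact ⟨z, hz, hpm hNM h⟩
  have hCP : ⋂ N, C N = P := by
    apply Set.Subset.antisymm
    · intro y hy
      rw [Set.mem_iInter] at hy
      choose z hzP hz using hy
      refine hP.mem_of_tendsto (f := z) (b := atTop) ?_ (Eventually.of_forall hzP)
      rw [tendsto_pi_nhds]
      intro m
      refine tendsto_const_nhds.congr' ?_
      filter_upwards [eventually_gt_atTop m] with N hN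
      have h1 : m ∈ pre (z N) N ↔ m ∈ pre y N := by rw [hz N]
      rw [mem_pre, mem_pre] at h1
      rw [Bool.eq_iff_iff]
      exact ⟨fun h2 => (h1.2 ⟨hN, h2⟩).2, fun h2 => (h1.1 ⟨hN, h2⟩).2⟩
    · intro y hy
      rw [Set.mem_iInter]
      exact fun N => ⟨y, hy, rfl⟩
  have hlim := tendsto_measure_iInter_atTop (μ := mu ℕ)
    (fun N => (hCc N).1.measurableSet.nullMeasurableSet) hCa ⟨0, measure_ne_top _ _⟩
  rw [hCP] at hlim
  have hlt : mu ℕ P < mu ℕ P + ε := ENNReal.lt_add_right (measure_ne_top _ _) (ne_of_gt hε)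
  obtain ⟨N, hN⟩ := (hlim.eventually (gt_mem_nhds hlt)).exists
  refine ⟨N, fun n hn => ?_⟩
  have hsub : P ∪ (fun z => xr (dl n) z) ⁻¹' P ⊆ C N := by
    rintro z (hz | hz)
    · exact ⟨z, hz, rfl⟩
    · refine ⟨xr (dl n) z, hz, ?_⟩
      ext i
      rw [mem_pre, mem_pre]
      refine and_congr_right fun hi => ?_
      have h1 : dl n i = false := by
        unfold dl
        exact decide_eq_false (by omega)
      simp [xr, h1]
  have hTm : MeasurableSet ((fun z => xr (dl n) z) ⁻¹' P) := (mp_xr _).measurable hP.measurableSet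
  have h1 : mu ℕ ((fun z => xr (dl n) z) ⁻¹' P) = mu ℕ P :=
    (mp_xr _).measure_preimage hP.measurableSet.nullMeasurableSet
  have h2 : mu ℕ (P \ (fun z => xr (dl n) z) ⁻¹' P) + mu ℕ P ≤ ε + mu ℕ P := by
    calc mu ℕ (P \ (fun z => xr (dl n) z) ⁻¹' P) + mu ℕ P
        = mu ℕ (P \ (fun z => xr (dl n) z) ⁻¹' P) + mu ℕ ((fun z => xr (dl n) z) ⁻¹' P) := by
          rw [h1]
      _ = mu ℕ ((P \ (fun z => xr (dl n) z) ⁻¹' P) ∪ (fun z => xr (dl n) z) ⁻¹' P) :=
          (measure_union Set.disjoint_sdiff_left hTm).symm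
      _ ≤ mu ℕ (C N) := measure_mono (by rw [Set.sdiff_union_self]; exact hsub)
      _ ≤ ε + mu ℕ P := by rw [add_comm]; exact hN.le
  exact (ENNReal.add_le_add_iff_right (measure_ne_top _ _)).1 h2

/-- one point, all codes -/
theorem translate {P : Set (ℕ → Bool)} (hP : IsClosed P) (hpos : 0 < mu ℕ P) :
    ∃ (s : ℕ → Bool) (n : ℕ → ℕ), Sp n ∧ s ∈ P ∧ ∀ w, xr (S n w) s ∈ P := by
  obtain ⟨ε, hε, hsum⟩ := ENNReal.exists_pos_sum_of_countable' (ne_of_gt hpos) ℕ
  have hstep : ∀ (Q : Set (ℕ → Bool)) (k m : ℕ), ∃ n, m ≤ n ∧ n % 2 = 0 ∧ (IsClosed Q →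
      mu ℕ (Q \ ((fun z => xr (dl n) z) ⁻¹' Q ∩ (fun z => xr (dl (n + 1)) z) ⁻¹' Q)) ≤ ε k) := by
    intro Q k m
    by_cases hQ : IsClosed Q
    · obtain ⟨N, hN⟩ := near hQ (ENNReal.half_pos (ne_of_gt (hε k)))
      refine ⟨2 * max N m, by omega, by omega, fun _ => ?_⟩
      rw [Set.sdiff_inter]
      refine (measure_union_le _ _).trans ?_
      rw [← ENNReal.add_halves (ε k)]
      exact add_le_add (hN _ (by omega)) (hN _ (by omega))
    · exact ⟨2 * m, by omega, by omega, fun h => absurd h hQ⟩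
  choose N hN1 hN2 hN3 using hstep
  -- the states: the closed set and the lower bound for the next number
  obtain ⟨st, hst0, hsts⟩ : ∃ st : ℕ → Set (ℕ → Bool) × ℕ, st 0 = (P, 0) ∧ ∀ k, st (k + 1) =
      ((fun z => xr (dl (N (st k).1 k (st k).2)) z) ⁻¹' (st k).1 ∩
        (fun z => xr (dl (N (st k).1 k (st k).2 + 1)) z) ⁻¹' (st k).1,
        N (st k).1 k (st k).2 + 2) :=
    ⟨fun k => Nat.rec (P, 0) (fun k s => ((fun z => xr (dl (N s.1 k s.2)) z) ⁻¹' s.1 ∩
        (fun z => xr (dl (N s.1 k s.2 + 1)) z) ⁻¹' s.1, N s.1 k s.2 + 2)) k, rfl, fun k => rfl⟩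
  set n : ℕ → ℕ := fun k => N (st k).1 k (st k).2 with hn
  have hcl : ∀ k, IsClosed (st k).1 := by
    intro k
    induction k with
    | zero =>
      rw [hst0]
      exact hP
    | succ k ih =>
      rw [hsts]
      exact (ih.preimage (cont_xr _)).inter (ih.preimage (cont_xr _))
  have hsp : Sp n := by
    constructor
    · intro k
      have h1 := hN1 (st (k + 1)).1 (k + 1) (st (k + 1)).2
      have h2 : (st (k + 1)).2 = n k + 2 := by rw [hsts]
      rw [h2] at h1
      simp only [hn]
      rw [h2]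
      exact h1
    · exact fun k => hN2 _ _ _
  have hloss : ∀ k, mu ℕ ((st k).1 \ (st (k + 1)).1) ≤ ε k := by
    intro k
    rw [hsts]
    exact hN3 _ _ _ (hcl k)
  obtain ⟨s, hs⟩ : ∃ s, ∀ k, s ∈ (st k).1 := by
    by_contra hcon
    push Not at hcon
    have h1 : P ⊆ ⋃ k, (st k).1 \ (st (k + 1)).1 := by
      intro s hs
      by_contra h2
      rw [Set.mem_iUnion, not_exists] at h2
      obtain ⟨k, hk⟩ := hcon s
      apply hk
      clear hk
      induction k with
      | zero =>
        rw [hst0]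
        exact hs
      | succ k ih =>
        by_contra h3
        exact h2 k ⟨ih, h3⟩
    have h2 : mu ℕ P ≤ ∑' k, ε k :=
      (measure_mono h1).trans ((measure_iUnion_le _).trans (ENNReal.tsum_le_tsum hloss))
    exact absurd (lt_of_le_of_lt h2 hsum) (lt_irrefl _)
  refine ⟨s, n, hsp, ?_, fun w => ?_⟩
  · have h1 := hs 0
    rw [hst0] at h1
    exact h1
  -- finite sums
  classical
  set A : ℕ → (ℕ → Bool) := fun k m => decide (∃ j < k, m = n j + (w j).toNat) with hA
  have hAstep : ∀ k, A (k + 1) = xr (A k) (dl (n k + (w k).toNat)) := by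
    intro k
    funext m
    simp only [hA, xr, dl]
    by_cases h1 : m = n k + (w k).toNat
    · have h2 : ∃ j < k + 1, m = n j + (w j).toNat := ⟨k, Nat.lt_succ_self k, h1⟩
      have h3 : ¬ ∃ j < k, m = n j + (w j).toNat := by
        rintro ⟨j, hj, hj'⟩
        have h4 := hsp.lt hj
        have h5 := toNat_le_one (w j)
        omega
      rw [decide_eq_true h2, decide_eq_false h3, decide_eq_true h1]
      rfl
    · rw [decide_eq_false h1, Bool.xor_false]
      refine decide_eq_decide.2 ⟨?_, ?_⟩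
      · rintro ⟨j, hj, hj'⟩
        rcases Nat.lt_succ_iff_lt_or_eq.1 hj with h2 | h2
        · exact ⟨j, h2, hj'⟩
        · rw [h2] at hj'
          exact absurd hj' h1
      · rintro ⟨j, hj, hj'⟩
        exact ⟨j, hj.trans (Nat.lt_succ_self k), hj'⟩
  have hAP : ∀ k z, z ∈ (st k).1 → xr (A k) z ∈ P := by
    intro k
    induction k with
    | zero =>
      intro z hz
      rw [hst0] at hz
      have h1 : xr (A 0) z = z := by
        funext m
        simp [xr, hA]
      rw [h1]
      exact hz
    | succ k ih =>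
      intro z hz
      rw [hsts] at hz
      have h1 : xr (A (k + 1)) z = xr (A k) (xr (dl (n k + (w k).toNat)) z) := by
        rw [hAstep]
        funext m
        simp only [xr]
        rw [Bool.xor_assoc]
      rw [h1]
      refine ih _ ?_
      cases w k
      · exact hz.1
      · exact hz.2
  refine hP.mem_of_tendsto (f := fun k => xr (A k) s) (b := atTop) ?_
    (Eventually.of_forall fun k => hAP k s (hs k))
  rw [tendsto_pi_nhds]
  intro m
  refine tendsto_const_nhds.congr' ?_
  filter_upwards [eventually_gt_atTop m] with k hk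
  have h1 : S n w m = A k m := by
    rw [Bool.eq_iff_iff, S_iff]
    simp only [hA, decide_eq_true_iff]
    constructor
    · rintro ⟨j, hj⟩
      refine ⟨j, ?_, hj⟩
      by_contra h2
      have h3 := hsp.le j
      omega
    · rintro ⟨j, _, hj⟩
      exact ⟨j, hj⟩
  simp only [xr]
  rw [h1]

/-- the splitting theorem for sets of positive measure -/
theorem split {A : Set (ℕ → Bool)} (hA : MeasurableSet A) (hμ : 0 < mu ℕ A) (b : ℕ → Bool) :
    ∃ s ∈ A, ∃ p, TLe (join b s) p ∧
      ∀ w, TLe p w → ∃ r ∈ A, TEq w (join (join b s) (join b r)) := by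
  obtain ⟨K, hKA, hK, hpos⟩ := hA.exists_lt_isClosed_of_ne_top (measure_ne_top (mu ℕ) A) hμ
  obtain ⟨s, n, hn, hs, hw⟩ := translate hK hpos
  obtain ⟨p, hp⟩ := encode hn
  refine ⟨s, hKA hs, join (join b s) p, TLe.left _ _,
    fun w hpw => ⟨xr (S n w) s, hKA (hw w), ?_, ?_⟩⟩
  · -- decoding
    refine (decode hn w).trans ?_
    have h1 : xr (xr (S n w) s) s = S n w := by
      funext m
      simp only [xr]
      cases S n w m <;> cases s m <;> rfl
    have h2 : TLe (xr (xr (S n w) s) s) (join (join b s) (join b (xr (S n w) s))) :=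
      TLe.xr ((TLe.right b _).trans (TLe.right _ _)) ((TLe.right b s).trans (TLe.left _ _))
    rwa [h1] at h2
  · have h1 : TLe (join b s) w := (TLe.left _ p).trans hpw
    refine TLe.join h1 (TLe.join ((TLe.left b s).trans h1) (TLe.xr ?_ ((TLe.right b s).trans h1)))
    exact hp w w (TLe.refl w) ((TLe.right _ p).trans hpw)

/-! ### homomorphisms -/

theorem ev_symm {x y : ℕ → Bool} (h : EvEq x y) : EvEq y x := by
  obtain ⟨N, hN⟩ := h
  exact ⟨N, fun n hn => (hN n hn).symm⟩

theorem ev_trans {x y z : ℕ → Bool} (h : EvEq x y) (h' : EvEq y z) : EvEq x z := by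
  obtain ⟨N, hN⟩ := h
  obtain ⟨M, hM⟩ := h'
  exact ⟨max N M, fun n hn => (hN n ((le_max_left _ _).trans hn)).trans
    (hM n ((le_max_right _ _).trans hn))⟩

theorem meas_joinl (b : ℕ → Bool) : Measurable fun z => Helper64.E0.join b z := by
  rw [measurable_pi_iff]
  intro n
  unfold Helper64.E0.join
  by_cases h : n % 2 = 0
  · simp only [h, if_true]
    exact measurable_const
  · simp only [h, if_false]
    exact measurable_pi_apply _

/-- the typical value above `b` -/
theorem typical {f : (ℕ → Bool) → (ℕ → Bool)} (hf : Measurable f)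
    (hinv : ∀ x y, TEq x y → EvEq (f x) (f y)) {b : ℕ → Bool} (hb : TLe permCode b) :
    ∃ (c : ℕ → Bool) (A : Set (ℕ → Bool)), MeasurableSet A ∧ 1 / 2 < (mu ℕ).real A ∧
      ∀ z ∈ A, EvEq (f (join b z)) c := by
  have hm : ∀ k : ℕ, Measurable fun (z : ℕ → Bool) i => f (join b z) (k + i) := by
    intro k
    rw [measurable_pi_iff]
    intro i
    exact (measurable_pi_apply (k + i)).comp (hf.comp (meas_joinl b))
  obtain ⟨N, hN⟩ := majority (fun k z i => f (join b z) (k + i)) hm (fun k z z' h => by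
      funext i
      have h1 := congrFun h (i + 1)
      rw [show k + (i + 1) = k + 1 + i by omega] at h1
      exact h1) fun z c => by
    have h1 := TEq.perm (z := z) (permCode_spec hb c).1 (permCode_spec hb c).2
    obtain ⟨k, hk⟩ := hinv _ _ h1
    exact ⟨k, funext fun i => hk _ (Nat.le_add_right k i)⟩
  refine ⟨fun i => maj (fun z i => f (join b z) (N + i)) (i - N), _,
    measurableSet_eq_pi (hm N) measurable_const, hN, fun z hz => ⟨N, fun i hi => ?_⟩⟩
  rw [Set.mem_ofPred_eq] at hz
  rw [← hz]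
  beta_reduce
  rw [Nat.add_sub_cancel' hi]

/-- the splitting theorem for homomorphisms -/
theorem split_hom {f : (ℕ → Bool) → (ℕ → Bool)} (hf : Measurable f)
    (hinv : ∀ x y, TEq x y → EvEq (f x) (f y)) (b : ℕ → Bool) :
    ∃ c x p : ℕ → Bool, TLe b x ∧ TLe x p ∧ EvEq (f x) c ∧
      ∀ w, TLe p w → ∃ y, TLe b y ∧ EvEq (f y) c ∧ TEq w (join x y) := by
  obtain ⟨c, A, hA, hμ, hc⟩ := typical hf hinv (b := join b permCode) (TLe.right _ _)
  have hpos : 0 < mu ℕ A := by
    have h1 : 0 < (mu ℕ).real A := by linarith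
    exact (ENNReal.toReal_pos_iff.1 h1).1
  obtain ⟨s, hs, p, hsp, hp⟩ := split hA hpos (join b permCode)
  have hb : ∀ z, TLe b (join (join b permCode) z) := fun z =>
    (TLe.left b permCode).trans (TLe.left _ z)
  refine ⟨c, join (join b permCode) s, p, hb s, hsp, hc s hs, fun w hw => ?_⟩
  obtain ⟨r, hr, h⟩ := hp w hw
  exact ⟨join (join b permCode) r, hb r, hc r hr, h⟩

end Pool.Agent.Helper1.JC
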